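import Pool.Agent.W946.RBDi

/-!
# The red-blue cut problem in directed graphs is NP-complete

The reduction is from the clique problem.  Let `G` be a graph with `n` vertices and `m` edges and
let `2 ≤ k ≤ m + 1`, `N = 2 m + 6`.  The digraph has the vertices of `G`, a vertex `x_e` for every
edge `e` of `G`, and two sets `S`, `T` of `N` vertices each.  The red arcs are: all arcs inside `S`
and all arcs inside `T`; all arcs from the other vertices to `S`; all arcs from `T` to the other
vertices; the arcs from a fixed vertex of `S` to the vertices of `G`.  The blue arcs are: `v x_e`,
`w x_e`, `x_e t` for all edges `e = vw` of `G`, where `t` is a fixed vertex of `T`.  If a nonempty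
proper subset `X` of the vertices is left by at most `k` red arcs then `X` contains `S` and is
disjoint from `T`.  If `U` is the set of the vertices of `G` outside `X` then `|U|` red arcs leave
`X`, and at least `m - e(U)` blue ones, with equality for a suitable choice of the `x_e` in `X`,
where `e(U)` is the number of the edges of `G` inside `U`.
-/

namespace Pool.Agent.Results.MP_ac2b6c_lc.NPComplete

open Pool.Agent.NPC Pool.Agent.W946

/-- **The red-blue cut problem in directed graphs is NP-complete**: it is in `NP`, and every
language in `NP` has a polynomial-time many-one reduction to it. -/
theorem result : InNPP RedBlueDicut ∧ NPHardP RedBlueDicut :=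
  ⟨inNPP_redBlueDicut, npHardP_redBlueDicut⟩

end Pool.Agent.Results.MP_ac2b6c_lc.NPComplete
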